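import Pool.Agent.Run7.h696.CF.Iface3
import Pool.Agent.Run7.h882.CF.BLKG

/-!
# Project CF (helper696), piece BLKL: direct sums (systems with a smaller radius)

Copy of `Run7/h882/CF/BLKG.lean`.
-/

set_option autoImplicit false

open PowerSeries Matrix
open Pool.Agent.Y113 hiding Bm
open Pool.Agent.Y120.GF Pool.Agent.Y120.GH Pool.Agent.Y119.HZ
open Pool.Agent.Y119.HY (cm E Hf Yf Rel Gal)
open Pool.Agent.Run7.h225.HG Pool.Agent.Run7.h696.CF

namespace Pool.Agent.Run7.h468.CF

open Pool.Agent.Run7.h882.CF (ode_mat)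

open BLK in
/-- **BLKL** -/
theorem p_BLKL : S_BLKL := by
  classical
  intro L r n N H W h
  have h0 : SDc (0 : ℚ⟦X⟧) := by simpa using SDc.int 0
  have h00 : ∀ t : ℝ, Cv t (0 : ℚ⟦X⟧) := fun t => by
    unfold Cv
    simp [summable_zero]
  constructor
  · have h1 : ∀ i j : Fin (∑ j, n j), ∃ m : ℤ, (m : ℚ) = blk n ℚ N i j := by
      intro a b
      rcases blk_cases a b with h' | ⟨j, i, k, h'⟩
      · exact ⟨0, by rw [h', Int.cast_zero]⟩
      · obtain ⟨N', hN'⟩ := (h j).int
        exact ⟨N' i k, by rw [h', hN']⟩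
    choose N' hN' using h1
    exact ⟨N', hN'⟩
  · exact blk_pow_zero N fun j => (h j).nil
  · intro a b
    have h1 : cf (blk n ℚ⟦X⟧ H) 0 = 1 := by
      rw [cf_blk, ← map_one (blk n ℚ)]
      congr 1
      funext j
      ext i k
      unfold cf
      rw [Matrix.map_apply, (h j).zero, Pi.one_apply, Matrix.one_apply]
    have h2 := congrFun (congrFun h1 a) b
    rw [Matrix.one_apply] at h2
    exact h2
  · choose T A hT hA using fun j => (h j).ode
    have hA' : ∀ j, psR (T j) • (th (H j) + H j * km (N j)) = (Matrix.of (A j)).map psR * H j := fun j =>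
      ode_mat.1 (hA j)
    let U : Fin r → Polynomial ℤ := fun j => ∏ i ∈ Finset.univ.erase j, T i
    refine ⟨∏ j, T j, blk n (Polynomial ℤ) fun j => U j • Matrix.of (A j),
      Finset.prod_ne_zero_iff.2 fun j _ => hT j, ?_⟩
    rw [ode_mat]
    have e1 : th (blk n ℚ⟦X⟧ H) = blk n ℚ⟦X⟧ fun j => th (H j) :=
      blk_map (fun f : ℚ⟦X⟧ => X * d⁄dX ℚ f) (by rw [map_zero, mul_zero]) H
    have e2 : km (blk n ℚ N) = blk n ℚ⟦X⟧ fun j => km (N j) := blk_map (C (R := ℚ)) (map_zero _) N
    have e3 : (blk n (Polynomial ℤ) fun j => U j • Matrix.of (A j)).map psR =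
        blk n ℚ⟦X⟧ fun j => psR (U j) • (Matrix.of (A j)).map psR := by
      rw [blk_map psR (map_zero _)]
      congr 1
      funext j
      ext i k
      simp [Matrix.map_apply, Matrix.smul_apply]
    rw [e1, e2, e3, ← map_mul, ← map_mul, ← map_add, ← blk_smul]
    congr 1
    funext j
    rw [Pi.mul_apply, smul_mul_assoc, ← hA' j, smul_smul]
    have e4 : ∏ j, T j = U j * T j := (Finset.prod_erase_mul _ _ (Finset.mem_univ j)).symm
    rw [e4, map_mul]
    rfl
  · rw [← map_mul, ← map_one (blk n ℚ⟦X⟧)]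
    congr 1
    funext j
    exact (h j).inv
  · intro a b
    rcases blk_cases a b with h' | ⟨j, i, k, h'⟩
    · rw [h']; exact h0
    · rw [h']; exact (h j).sH i k
  · intro a b
    rcases blk_cases a b with h' | ⟨j, i, k, h'⟩
    · rw [h']; exact h0
    · rw [h']; exact (h j).sW i k
  · intro t ht a b
    rcases blk_cases a b with h' | ⟨j, i, k, h'⟩
    · rw [h']; exact h00 t
    · rw [h']; exact (h j).cv t ht i k

end Pool.Agent.Run7.h468.CF
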