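import Pool.Agent.Run7.h696.CF.Iface3
import Pool.Agent.Run7.h225.HG.SYS2

/-!
# Piece TUPL: the theorem on tuples for direct sums of general systems, smaller radius of convergence

Adapted from `Run7/h160/CF/TUPG.lean`.
-/

set_option autoImplicit false

open PowerSeries Matrix
open Pool.Agent.Y113 hiding Bm
open Pool.Agent.Y120.GF Pool.Agent.Y120.GH Pool.Agent.Y119.HZ
open Pool.Agent.Y119.HY (cm E Hf Yf Sol E_mul_neg Ep Ep_eval Vr)
open Pool.Agent.Run7.h225.HG Pool.Agent.Run7.h225.HG.SYS2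
open Pool.Agent.Run7.h696.CF

namespace Pool.Agent.Run7.h468.CF

section one

variable {n : ℕ} {N : Matrix (Fin n) (Fin n) ℚ} {H W : Matrix (Fin n) (Fin n) ℚ⟦X⟧}

lemma cm_nilG (hN : N ^ n = 0) : cm N ^ n = 0 := by
  rw [← Pool.Agent.Y119.HY.cm_pow, hN, Pool.Agent.Y119.HY.cm_zero]

lemma ev_aeval_G {L : ℝ} (hL : 0 < L) (h : SysL L n N H W) {t : ℝ} (ht : L < t) (R : MvPolynomial (Fin (n * n)) (Polynomial ℚ)) :
    Cv t (MvPolynomial.aeval (hfg H) R) ∧ ((ev t (MvPolynomial.aeval (hfg H) R) : ℝ) : ℂ) =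
      MvPolynomial.eval₂ (evq (((1 / t : ℝ)) : ℂ)) (fun j => ((ev t (hfg H j) : ℝ) : ℂ)) R := by
  have ht0 : 0 < t := by linarith
  induction R using MvPolynomial.induction_on with
  | C p =>
    have h1 : MvPolynomial.aeval (hfg H) (MvPolynomial.C p) = (p : ℚ⟦X⟧) := by
      rw [MvPolynomial.aeval_C, PowerSeries.algebraMap_apply']
      simp
    rw [h1, MvPolynomial.eval₂_C]
    refine ⟨Cv.coe p, ?_⟩
    rw [ev_coe]
    unfold evq
    have h2 : (((1 / t : ℝ)) : ℂ) = algebraMap ℝ ℂ (1 / t) := rfl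
    rw [h2]
    show _ = Polynomial.aeval (algebraMap ℝ ℂ (1 / t)) p
    rw [Polynomial.aeval_algebraMap_apply]
    rfl
  | add p q hp hq =>
    rw [map_add, MvPolynomial.eval₂_add, ← hp.2, ← hq.2, Cv.ev_add ht0 hp.1 hq.1]
    refine ⟨Cv.add ht0 hp.1 hq.1, ?_⟩
    push_cast
    rfl
  | mul_X p j hp =>
    have h1 : Cv t (hfg H j) := h.cv t ht _ _
    rw [map_mul, MvPolynomial.aeval_X, MvPolynomial.eval₂_mul, MvPolynomial.eval₂_X, ← hp.2, Cv.ev_mul ht0 hp.1 h1]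
    refine ⟨Cv.mul ht0 hp.1 h1, ?_⟩
    push_cast
    rfl

/-- invariance of the relations between the entries of the holomorphic part -/
theorem rel_inv_G {L : ℝ} (hL : 0 < L) (h : SysL L n N H W) {R : MvPolynomial (Fin (n * n)) (Polynomial ℚ)}
    (hR : MvPolynomial.aeval (hfg H) R = 0) {x : ℝ} (hx : 0 < x) (hx1 : x < 1 / L) {g : Matrix (Fin n) (Fin n) ℂ}
    (hg : g ∈ GalL L (Yf (cm N) (Hcg H))) {Z : Matrix (Fin n) (Fin n) ℂ}
    (hZ : Yf (cm N) (Hcg H) (x : ℂ) * g * E (cm N) (-Complex.log x) = Z) :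
    MvPolynomial.eval₂ (evq (x : ℂ)) (fun j => Z (ix n j).1 (ix n j).2) R = 0 := by
  have hN : cm N ^ n = 0 := cm_nilG h.nil
  have hrel : PR (cm N) R ∈ RelL L (Yf (cm N) (Hcg H)) := by
    intro y hy hy1
    rw [ev_PR]
    have e1 : Yf (cm N) (Hcg H) (y : ℂ) * E (cm N) (-Complex.log y) = Hf (Hcg H) (y : ℂ) := by
      unfold Yf
      rw [Matrix.mul_assoc, E_mul_neg hN, mul_one]
    rw [e1]
    have hy' : L < 1 / y := by
      rw [lt_div_iff₀ hL] at hy1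
      rw [lt_div_iff₀ hy]
      linarith
    have h1 := (ev_aeval_G hL h hy' R).2
    rw [hR] at h1
    have h2 : ev (1 / y) (0 : ℚ⟦X⟧) = 0 := by
      unfold ev
      simp
    rw [h2, Complex.ofReal_zero, one_div_one_div] at h1
    have h3 : (fun j => ((ev (1 / y) (hfg H j) : ℝ) : ℂ)) = fun j => Hf (Hcg H) (y : ℂ) (ix n j).1 (ix n j).2 := by
      funext j
      unfold hfg
      rw [ev_H, one_div_one_div]
    rw [h3] at h1
    exact h1.symm
  have h1 := hg _ hrel x hx hx1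
  rw [ev_PR, hZ] at h1
  exact h1

end one

variable {k : ℕ}

theorem relI_vanish_G {n : Fin k → ℕ} {N : ∀ i, Matrix (Fin (n i)) (Fin (n i)) ℚ}
    {H W : ∀ i, Matrix (Fin (n i)) (Fin (n i)) ℚ⟦X⟧}
    {L : ℕ} (hL : 1 ≤ L) (hS : ∀ i, SysL L (n i) (N i) (H i) (W i)) {δ : ℕ} {t : Fin k → ℕ} (ht : ∀ i, L < t i)
    {Z : ∀ i, Matrix (Fin (n i)) (Fin (n i)) ℂ}
    (hZ : ∀ i, ∃ g ∈ GalL L (Yf (cm (N i)) (Hcg (H i))),
      Yf (cm (N i)) (Hcg (H i)) (((1 / (t i : ℝ) : ℝ)) : ℂ) * g * E (cm (N i)) (-Complex.log (((1 / (t i : ℝ) : ℝ)) : ℂ)) = Z i)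
    (l : Fin k → ℂ)
    {P : MvPolynomial (Vx n) ℂ} (hP : P ∈ relI δ (fun i => hfg (H i)) t) :
    MvPolynomial.aeval (pt (fun i j => Z i (ix (n i) j).1 (ix (n i) j).2) l) P = 0 := by
  set θ := pt (fun i j => Z i (ix (n i) j).1 (ix (n i) j).2) l with hθ
  have h1 : relI δ (fun i => hfg (H i)) t ≤ RingHom.ker (MvPolynomial.aeval (R := ℂ) θ).toRingHom := by
    unfold relI
    rw [Ideal.span_le]
    rintro _ ⟨i, R, -, hR, rfl⟩
    show (MvPolynomial.aeval θ) (MvPolynomial.rename (fun j => (⟨i, some j⟩ : Vx n)) (MvPolynomial.map (spec (t i)) R)) = 0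
    rw [MvPolynomial.aeval_rename, MvPolynomial.aeval_def, MvPolynomial.eval₂_map]
    have h2 : (algebraMap ℂ ℂ).comp (spec (t i)) = evq (((1 / (t i : ℝ) : ℝ)) : ℂ) := by
      rw [← spec_eq]
      rfl
    rw [h2]
    have hL0 : (0 : ℝ) < L := by exact_mod_cast hL
    have h3 : (L : ℝ) < t i := by exact_mod_cast ht i
    have h30 : (0 : ℝ) < t i := hL0.trans h3
    obtain ⟨g, hg, hgZ⟩ := hZ i
    have h4 := rel_inv_G hL0 (hS i) (R := R) hR (x := 1 / (t i : ℝ)) (by positivity)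
      (one_div_lt_one_div_of_lt hL0 h3) hg hgZ
    have h5 : (θ ∘ fun j => (⟨i, some j⟩ : Vx n)) = fun j : Fin (n i * n i) =>
        Z i (ix (n i) j).1 (ix (n i) j).2 := by
      funext j
      rfl
    rw [h5]
    exact h4
  exact h1 hP

/-- the theorem on tuples for general systems -/
theorem tup1 (k δ D L : ℕ) (hL : 1 ≤ L) (n : Fin k → ℕ) (N : ∀ i, Matrix (Fin (n i)) (Fin (n i)) ℚ)
    (H W : ∀ i, Matrix (Fin (n i)) (Fin (n i)) ℚ⟦X⟧) (T : ∀ i, ℂ → Set (Matrix (Fin (n i)) (Fin (n i)) ℂ))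
    (hS : ∀ i, SysL L (n i) (N i) (H i) (W i))
    (hT : ∀ i, ∀ x : ℝ, 0 < x → x < 1 / L → ∀ X ∈ T i x, ∀ c : ℂ, ∃ g ∈ GalL L (Yf (cm (N i)) (Hcg (H i))),
      Yf (cm (N i)) (Hcg (H i)) x * g = X * E (cm (N i)) c) :
    ∃ c C : ℝ, 0 < c ∧ 0 ≤ C ∧ ∀ (V : Submodule ℚ ℂ) [Module.Finite ℚ V], Module.finrank ℚ V ≤ D →
      ∀ Ω : (∀ i, Matrix (Fin (n i)) (Fin (n i)) ℂ), ∀ (x : Fin k → ℕ) (N' : ℕ), (∀ i, L ≤ x i) → 1 ≤ N' →
      ∀ S : Finset (Fin k → ℕ), (∀ t ∈ S, (∀ i, x i < t i ∧ t i ≤ x i + N') ∧ ∃ P : MvPolynomial (Jx n) ℂ,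
        P.totalDegree ≤ δ ∧ (∀ s, P.coeff s ∈ V) ∧
        MvPolynomial.aeval (pw (fun i => ((Real.log (t i) : ℝ) : ℂ)) fun i => Ytg (N i) (H i) (t i) * Ω i) P = 0 ∧
        ∃ (l : Fin k → ℂ) (g : ∀ i, Matrix (Fin (n i)) (Fin (n i)) ℂ),
          (∀ i, g i ∈ T i (((1 / (t i : ℝ) : ℝ)) : ℂ)) ∧
          MvPolynomial.aeval (pw l fun i => g i * Ω i) P ≠ 0) →
      (S.card : ℝ) ≤ C * (N' : ℝ) ^ (k - 1) * ∑ i, (1 + N' / ((x i : ℝ) + N') ^ c) := by
  classical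
  obtain ⟨c, C, hc, hC, hmain⟩ := tuples k (δ * dg n) ((Fintype.card (Option (Ix n))) ^ δ * D) (fun i => n i * n i)
    (fun i => hfg (H i)) (fun i => by
      obtain ⟨C₁, -, hs, -⟩ := Pool.Agent.Y119.HY.SDc.unif
        (y := fun p : Fin (n i) × Fin (n i) => H i p.1 p.2) fun p => (hS i).sH p.1 p.2
      exact ⟨C₁, fun j m => hs (ix (n i) j) m⟩) (fun i => by
      obtain ⟨Nz, hNz⟩ := (hS i).int
      obtain ⟨T₁, A, hT₁, hode⟩ := (hS i).ode
      exact (fam_gen (hS i).nil hNz hT₁ (hS i).inv (hS i).zero hode (hS i).sH (hS i).sW _).2)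
  refine ⟨c, C, hc, hC, ?_⟩
  intro V _ hV Ω x N' hx hN' S hSS
  obtain ⟨hfin, hrank⟩ := Vn_fin Ω V δ
  refine hmain (Vn Ω V δ) (hrank.trans (Nat.mul_le_mul_left _ hV)) x N' hN' S fun t htS => ?_
  obtain ⟨hbox, P, hPd, hPV, hP0, l, g, hg, hPg⟩ := hSS t htS
  refine ⟨hbox, MvPolynomial.aeval (subg' N Ω) P, (aeval_MVg' N Ω hPd hPV).2, (aeval_MVg' N Ω hPd hPV).1, ?_, ?_⟩
  · -- the value
    have h1 : valpt (fun i => hfg (H i)) t =
        pt (fun i j => Hf (Hcg (H i)) (((1 / (t i : ℝ) : ℝ)) : ℂ) (ix (n i) j).1 (ix (n i) j).2)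
          (fun i => ((Real.log (t i) : ℝ) : ℂ)) := by
      unfold valpt
      congr 1
      funext i j
      exact ev_H _ _ _
    have h2 : MvPolynomial.aeval (valpt (fun i => hfg (H i)) t) (MvPolynomial.aeval (subg' N Ω) P) =
        MvPolynomial.aeval (fun v => MvPolynomial.aeval (valpt (fun i => hfg (H i)) t) (subg' N Ω v)) P :=
      MvPolynomial.aeval_bind₁ _ _ _
    rw [h2, h1]
    have h3 := fun v => aeval_subg' N Ω (fun i => Hf (Hcg (H i)) (((1 / (t i : ℝ) : ℝ)) : ℂ))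
      (fun i => ((Real.log (t i) : ℝ) : ℂ)) v
    simp only [h3]
    exact hP0
  · intro hmem
    apply hPg
    have hL0 : (0 : ℝ) < L := by exact_mod_cast hL
    have ht2 : ∀ i, L < t i := fun i => by
      have := (hbox i).1
      have := hx i
      omega
    have hN : ∀ i, (cm (N i)) ^ n i = 0 := fun i => cm_nilG (hS i).nil
    set Z : ∀ i, Matrix (Fin (n i)) (Fin (n i)) ℂ := fun i => g i * E (cm (N i)) (l i) with hZd
    have hZ : ∀ i, ∃ γ ∈ GalL L (Yf (cm (N i)) (Hcg (H i))),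
        Yf (cm (N i)) (Hcg (H i)) (((1 / (t i : ℝ) : ℝ)) : ℂ) * γ *
          E (cm (N i)) (-Complex.log (((1 / (t i : ℝ) : ℝ)) : ℂ)) = Z i := by
      intro i
      have h3 : (L : ℝ) < t i := by exact_mod_cast ht2 i
      have h30 : (0 : ℝ) < t i := hL0.trans h3
      obtain ⟨γ, hγ, hγe⟩ := hT i (1 / (t i : ℝ)) (by positivity) (one_div_lt_one_div_of_lt hL0 h3)
        (g i) (hg i) (l i + Complex.log (((1 / (t i : ℝ) : ℝ)) : ℂ))
      refine ⟨γ, hγ, ?_⟩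
      rw [hγe, Matrix.mul_assoc, ← Pool.Agent.Y119.HY.E_add (hN i), hZd]
      congr 2
      ring
    have h1 := relI_vanish_G hL hS ht2 hZ l hmem
    have h2 : MvPolynomial.aeval (pt (fun i j => Z i (ix (n i) j).1 (ix (n i) j).2) l) (MvPolynomial.aeval (subg' N Ω) P) =
        MvPolynomial.aeval (fun v => MvPolynomial.aeval (pt (fun i j => Z i
          (ix (n i) j).1 (ix (n i) j).2) l) (subg' N Ω v)) P := MvPolynomial.aeval_bind₁ _ _ _
    rw [h2] at h1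
    have h3 := fun v => aeval_subg' N Ω Z l v
    simp only [h3] at h1
    have h4 : (fun i => Z i * E (cm (N i)) (-l i) * Ω i) = fun i => g i * Ω i := by
      funext i
      have e1 : E (cm (N i)) (l i) * E (cm (N i)) (-l i) = 1 := E_mul_neg (hN i) (l i)
      rw [hZd]
      simp only
      rw [Matrix.mul_assoc (g i), e1, mul_one]
    rw [h4] at h1
    exact h1

open JFINp in
/-- **TUPL** -/
theorem p_TUPL : S_TUPL := by
  intro k δ D L r n N H W T hL hnil hS hT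
  have hN : ∀ i j, cm (N i j) ^ n i j = 0 := fun i j => cm_nilG (hnil i j)
  have hY : ∀ (i : Fin k) (z : ℂ), Yf (cm (blk (n i) ℚ (N i))) (Hcg (blk (n i) ℚ⟦X⟧ (H i))) z =
      blk (n i) ℂ fun j => Yf (cm (N i j)) (Hcg (H i j)) z := by
    intro i z
    rw [BLK.cm_blk, BLK.Hcg_blk]
    exact BLK.Yf_blk (fun j => cm (N i j)) (hN i) (fun j => Hcg (H i j)) z
  have hE : ∀ (i : Fin k) (c : ℂ), E (cm (blk (n i) ℚ (N i))) c = blk (n i) ℂ fun j => E (cm (N i j)) c := by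
    intro i c
    rw [BLK.cm_blk]
    exact BLK.E_blk (fun j => cm (N i j)) (hN i) c
  have hYt : ∀ (i : Fin k) (t : ℕ), Ytg (blk (n i) ℚ (N i)) (blk (n i) ℚ⟦X⟧ (H i)) t =
      blk (n i) ℂ fun j => Ytg (N i j) (H i j) t := by
    intro i t
    unfold Ytg
    rw [hE, BLK.Hcg_blk, BLK.Hf_blk, ← map_mul]
    rfl
  obtain ⟨c, C, hc, hC, hmain⟩ := tup1 k δ D L hL (fun i => ∑ j, n i j) (fun i => blk (n i) ℚ (N i))
    (fun i => blk (n i) ℚ⟦X⟧ (H i)) (fun i => blk (n i) ℚ⟦X⟧ (W i))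
    (fun i z => (fun X => blk (n i) ℂ X) '' T i z) hS (by
      rintro i x hx hx1 _ ⟨X, hX, rfl⟩ c
      obtain ⟨g, hg, hg'⟩ := hT i x hx hx1 X hX c
      refine ⟨blk (n i) ℂ g, hg, ?_⟩
      rw [hY, hE]
      show _ = blk (n i) ℂ X * _
      rw [← map_mul, ← map_mul]
      congr 1
      funext j
      exact hg' j)
  refine ⟨c, C, hc, hC, ?_⟩
  intro V _ hV Ω x N' hx hN' S hSt
  refine hmain V hV (fun i => blk (n i) ℂ (Ω i)) x N' hx hN' S ?_
  intro t ht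
  obtain ⟨ht1, P, hP1, hP2, hP3, l, g, hg, hne⟩ := hSt t ht
  refine ⟨ht1, MvPolynomial.rename rhoJ P, (MvPolynomial.totalDegree_rename_le _ _).trans hP1,
    coeff_rhoJ V P hP2, ?_, l, fun i => blk (n i) ℂ (g i), fun i => ⟨g i, hg i, rfl⟩, ?_⟩
  · rw [MvPolynomial.aeval_rename]
    have e1 : (fun i => Ytg (blk (n i) ℚ (N i)) (blk (n i) ℚ⟦X⟧ (H i)) (t i) * blk (n i) ℂ (Ω i)) =
        fun i => blk (n i) ℂ fun j => Ytg (N i j) (H i j) (t i) * Ω i j := by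
      funext i
      rw [hYt, ← map_mul]
      rfl
    rw [e1, pw_rhoJ]
    exact hP3
  · rw [MvPolynomial.aeval_rename]
    have e1 : (fun i => blk (n i) ℂ (g i) * blk (n i) ℂ (Ω i)) =
        fun i => blk (n i) ℂ fun j => g i j * Ω i j := by
      funext i
      rw [← map_mul]
      rfl
    rw [e1, pw_rhoJ]
    exact hne

end Pool.Agent.Run7.h468.CF
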